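import Pool.Agent.X159.DQ.Main

set_option autoImplicit false

/-!
# Algebraic numbers and integers
-/

namespace Pool.Agent.X159.DQ

open MvPolynomial

theorem sqAP_rat (h : SqAP ℤ) : SqAP ℚ := by
  classical
  intro M B z
  obtain ⟨b, hb⟩ := IsLocalization.exist_integer_multiples_of_finite (nonZeroDivisors ℤ) z
  have hb0 : ((b : ℤ) : ℚ) ≠ 0 := by
    have := nonZeroDivisors.ne_zero b.2
    exact_mod_cast this
  choose z' hz' using hb
  have hz : ∀ i, ((z' i : ℤ) : ℚ) = ((b : ℤ) : ℚ) * z i := by
    intro i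
    have := hz' i
    simpa using this
  convert h M B z' using 1
  ext n
  simp only [Set.mem_setOf_eq]
  have h1 := congrFun (sqm_map (Int.castRingHom ℚ) B z' n) 0
  have h2 : (fun i => (Int.castRingHom ℚ) (z' i)) = fun i => ((b : ℤ) : ℚ) * z i :=
    funext fun i => hz i
  rw [h2, sqm_scale] at h1
  simp only [eq_intCast] at h1
  constructor
  · intro h0
    rw [h0, mul_zero] at h1
    exact_mod_cast h1.symm
  · intro h0
    rw [h0, Int.cast_zero] at h1
    exact (mul_eq_zero.1 h1).resolve_left (pow_ne_zero _ hb0)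

theorem sq_field (h : SqAP ℚ) {L : Type} [Field L] [Algebra ℚ L] {d : ℕ}
    (b : Module.Basis (Fin d) ℚ L) {M : ℕ} (B : Fin (M + 1) → Fin (M + 1) → ℤ)
    (zL : Fin (M + 1) → L) : IsAP {n : ℕ | (sqm B)^[n] zL 0 = 0} := by
  classical
  let f : Fin (M + 1) × Fin d → MvPolynomial (Fin (M + 1) × Fin d) ℚ := fun p =>
    ∑ j, ∑ s, ∑ t, C ((B p.1 j : ℚ) * b.repr (b s * b t) p.2) * X (j, s) * X (j, t)
  let u0 : Fin (M + 1) × Fin d → ℚ := fun p => b.repr (zL p.1) p.2
  let vec : (Fin (M + 1) × Fin d → ℚ) → Fin (M + 1) → L := fun u i =>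
    ∑ s, algebraMap ℚ L (u (i, s)) * b s
  have hrep : ∀ x : L, ∑ l, algebraMap ℚ L (b.repr x l) * b l = x := by
    intro x
    conv_rhs => rw [← b.sum_repr x]
    exact Finset.sum_congr rfl fun l _ => (Algebra.smul_def _ _).symm
  have hstep : ∀ u, vec (fun p => eval u (f p)) = sqm B (vec u) := by
    intro u
    funext i
    have e1 : ∀ j, (B i j : L) * (vec u j) ^ 2 = ∑ s, ∑ t, ∑ l,
        algebraMap ℚ L ((B i j : ℚ) * b.repr (b s * b t) l * u (j, s) * u (j, t)) * b l := by
      intro j
      simp only [vec]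
      rw [pow_two, Finset.sum_mul_sum, Finset.mul_sum]
      refine Finset.sum_congr rfl fun s _ => ?_
      rw [Finset.mul_sum]
      refine Finset.sum_congr rfl fun t _ => ?_
      have e2 := hrep (b s * b t)
      calc (B i j : L) * (algebraMap ℚ L (u (j, s)) * b s * (algebraMap ℚ L (u (j, t)) * b t))
          = (B i j : L) * algebraMap ℚ L (u (j, s)) * algebraMap ℚ L (u (j, t)) *
            (b s * b t) := by ring
        _ = (B i j : L) * algebraMap ℚ L (u (j, s)) * algebraMap ℚ L (u (j, t)) *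
            ∑ l, algebraMap ℚ L (b.repr (b s * b t) l) * b l := by rw [e2]
        _ = _ := by
            rw [Finset.mul_sum]
            refine Finset.sum_congr rfl fun l _ => ?_
            simp only [map_mul, map_intCast]
            ring
    simp only [sqm, e1]
    simp only [vec, f, map_sum, map_mul, eval_C, eval_X, Finset.sum_mul]
    rw [Finset.sum_comm]
    refine Finset.sum_congr rfl fun j _ => ?_
    rw [Finset.sum_comm]
    refine Finset.sum_congr rfl fun s _ => ?_
    rw [Finset.sum_comm]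
  have hu0 : vec u0 = zL := by
    funext i
    exact hrep (zL i)
  have hiter : ∀ n, vec ((fun (u : Fin (M + 1) × Fin d → ℚ) p => eval u (f p))^[n] u0) =
      (sqm B)^[n] zL := by
    intro n
    induction n with
    | zero => exact hu0
    | succ n ih => rw [Function.iterate_succ_apply', hstep, ih, Function.iterate_succ_apply']
  have hz : ∀ n, (sqm B)^[n] zL 0 = 0 ↔ ∀ s ∈ (Finset.univ : Finset (Fin d)),
      eval ((fun (u : Fin (M + 1) × Fin d → ℚ) p => eval u (f p))^[n] u0) (X ((0 : Fin (M + 1)), s))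
        = 0 := by
    intro n
    rw [← hiter n]
    simp only [vec, eval_X, Finset.mem_univ, forall_true_left]
    constructor
    · intro h3 s
      refine Fintype.linearIndependent_iff.1 b.linearIndependent (fun s =>
        (fun (u : Fin (M + 1) × Fin d → ℚ) p => eval u (f p))^[n] u0 (0, s)) ?_ s
      rw [← h3]
      exact Finset.sum_congr rfl fun l _ => Algebra.smul_def _ _
    · intro h3
      exact Finset.sum_eq_zero fun s _ => by rw [h3 s, map_zero, zero_mul]
  choose K M' B' z' hK hB using fun s : Fin d => cpoly_sqm f u0 (X ((0 : Fin (M + 1)), s))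
  apply EvPer.isAP
  have h1 : EvPer {n | ∀ s ∈ (Finset.univ : Finset (Fin d)),
      n ∈ {n | K s * (n + 1) ∈ {m | (sqm (B' s))^[m] (z' s) 0 = 0}}} :=
    EvPer.forall_mem _ _ fun s _ => (h _ (B' s) (z' s)).evPer.comap (K s) (hK s) 1
  convert h1 using 1
  ext n
  simp only [Set.mem_setOf_eq]
  rw [hz n]
  exact forall₂_congr fun s _ => hB s n

theorem sqAP_alg (h : SqAP ℚ) (k : Type) [Field k] [Algebra ℚ k] [Algebra.IsAlgebraic ℚ k] :
    SqAP k := by
  intro M B z
  have : FiniteDimensional ℚ (IntermediateField.adjoin ℚ (Set.range z)) :=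
    IntermediateField.finiteDimensional_adjoin fun x _ =>
      (Algebra.IsAlgebraic.isAlgebraic (R := ℚ) x).isIntegral
  let L := IntermediateField.adjoin ℚ (Set.range z)
  let zL : Fin (M + 1) → L := fun i =>
    ⟨z i, IntermediateField.subset_adjoin ℚ _ ⟨i, rfl⟩⟩
  convert @sq_field h L _ L.algebra' _ (Module.finBasis ℚ L) M B zL using 1
  ext n
  simp only [Set.mem_setOf_eq]
  have h1 := congrFun (sqm_map (algebraMap L k) B zL n) 0
  have h2 : (fun i => algebraMap L k (zL i)) = z := rfl
  rw [h2] at h1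
  rw [h1, map_eq_zero_iff _ (algebraMap L k).injective]

theorem sqAP_int (k : Type) [Field k] [CharZero k] (h : SqAP k) : SqAP ℤ := by
  intro M B z
  convert h M B (fun i => (z i : k)) using 1
  ext n
  simp only [Set.mem_setOf_eq]
  have h1 := congrFun (sqm_map (Int.castRingHom k) B z n) 0
  simp only [eq_intCast] at h1
  rw [h1, Int.cast_eq_zero]

theorem dml_alg_iff (k : Type) [Field k] [Algebra k ℂ] [Algebra ℚ k] [Algebra.IsAlgebraic ℚ k] :
    DMLover k ↔ SqAP ℤ := by
  have : CharZero k := (algebraMap k ℂ).charZero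
  rw [dml_iff]
  exact ⟨sqAP_int k, fun h => sqAP_alg (sqAP_rat h) k⟩

end Pool.Agent.X159.DQ
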