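import Pool.Agent.X159.DQ.Pipe

set_option autoImplicit false

/-!
# Self-maps of quasiprojective varieties and polynomial maps of affine spaces

(Jouanolou's trick.)
-/

namespace Pool.Agent.X159.DQ

open MvPolynomial

variable {k : Type*} [Field k] [Algebra k ℂ]

/-- Nullstellensatz on a closed set -/
theorem nss {σ κ : Type*} [Finite σ] (E : Set (MvPolynomial σ k)) (p : κ → MvPolynomial σ k)
    (h : ∀ q : σ → ℂ, (∀ e ∈ E, aeval q e = 0) → ∃ t, aeval q (p t) ≠ 0) :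
    ∃ c : κ →₀ MvPolynomial σ k, ∀ q : σ → ℂ, (∀ e ∈ E, aeval q e = 0) →
      (c.sum fun t ct => aeval q ct * aeval q (p t)) = 1 := by
  classical
  have hJ : zeroLocus ℂ (Ideal.span (E ∪ Set.range p)) = (∅ : Set (σ → ℂ)) := by
    rw [zeroLocus_span]
    refine Set.eq_empty_of_forall_notMem fun q hq => ?_
    obtain ⟨t, ht⟩ := h q fun e he => hq e (Or.inl he)
    exact ht (hq _ (Or.inr ⟨t, rfl⟩))
  have hrad := vanishingIdeal_zeroLocus_eq_radical (K := ℂ) (Ideal.span (E ∪ Set.range p))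
  rw [hJ, vanishingIdeal_empty] at hrad
  have htop : Ideal.span (E ∪ Set.range p) = ⊤ := Ideal.radical_eq_top.1 hrad.symm
  have h1 : (1 : MvPolynomial σ k) ∈ Ideal.span E ⊔ Ideal.span (Set.range p) := by
    rw [← Ideal.span_union, htop]
    exact Submodule.mem_top
  obtain ⟨a, ha, b, hb, hab⟩ := Submodule.mem_sup.1 h1
  obtain ⟨c, hc⟩ := Finsupp.mem_ideal_span_range_iff_exists_finsupp.1 hb
  refine ⟨c, fun q hq => ?_⟩
  have ha0 : aeval q a = 0 := by
    have : Ideal.span E ≤ RingHom.ker (aeval q : MvPolynomial σ k →ₐ[k] ℂ).toRingHom :=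
      Ideal.span_le.2 fun e he => hq e he
    exact this ha
  have hb1 : aeval q b = 1 := by
    have := congrArg (aeval q) hab
    rw [map_add, ha0, zero_add, map_one] at this
    exact this
  rw [← hb1, ← hc]
  simp only [Finsupp.sum, map_sum, smul_eq_mul, map_mul]

/-- values of a form on a multiple of a vector -/
theorem aeval_smul_hom {ι : Type*} {F : MvPolynomial ι k} {d : ℕ} (hF : F.IsHomogeneous d)
    (c : ℂ) (v : ι → ℂ) : aeval (fun i => v i * c) F = c ^ d * aeval v F := by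
  rw [aeval_def, aeval_def, eval₂_eq, eval₂_eq, Finset.mul_sum]
  refine Finset.sum_congr rfl fun m hm => ?_
  simp only [mul_pow, Finset.prod_mul_distrib, Finset.prod_pow_eq_pow_sum]
  rw [← hF.degree_eq_sum_deg_support hm]
  ring

section jou

variable {N : ℕ} {β : Type*}

/-- the variables: the entries of a matrix, and one for every pair of a form and a column -/
abbrev Sg (N : ℕ) (β : Type*) : Type _ := (Fin (N + 1) × Fin (N + 1)) ⊕ (β × Fin (N + 1))

/-- a form at the column `j` of the matrix -/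
noncomputable def col (j : Fin (N + 1)) (F : MvPolynomial (Fin (N + 1)) k) :
    MvPolynomial (Sg N β) k := bind₁ (fun i => X (Sum.inl (i, j))) F

theorem aeval_col (q : Sg N β → ℂ) (j : Fin (N + 1)) (F : MvPolynomial (Fin (N + 1)) k) :
    aeval q (col j F) = aeval (fun i => q (Sum.inl (i, j))) F := by
  rw [col, aeval_bind₁]
  simp

variable [Fintype β]

/-- `q` is over the point `y` of `X` -/
def Over (X : Set (Projectivization ℂ (Fin (N + 1) → ℂ)))
    (bp : β → MvPolynomial (Fin (N + 1)) k) (q : Sg N β → ℂ)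
    (y : Projectivization ℂ (Fin (N + 1) → ℂ)) : Prop :=
  y ∈ X ∧ (∃ w : Fin (N + 1) → ℂ, (∀ i j, q (Sum.inl (i, j)) = y.rep i * w j) ∧
    ∑ i, y.rep i * w i = 1) ∧
    ∑ t : β × Fin (N + 1), q (Sum.inr t) * aeval (fun i => q (Sum.inl (i, t.2))) (bp t.1) = 1

/-- the equations -/
def eqs (A : Set (MvPolynomial (Fin (N + 1)) k)) (bp : β → MvPolynomial (Fin (N + 1)) k) :
    Set (MvPolynomial (Sg N β) k) :=
  {e | ∃ i j i' j', e = X (Sum.inl (i, j)) * X (Sum.inl (i', j')) -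
    X (Sum.inl (i, j')) * X (Sum.inl (i', j))} ∪
  {∑ i, X (Sum.inl (i, i)) - 1} ∪
  {e | ∃ F ∈ A, ∃ j, e = col j F} ∪
  {∑ t : β × Fin (N + 1), X (Sum.inr t) * col t.2 (bp t.1) - 1}

theorem over_of_eqs {X : Set (Projectivization ℂ (Fin (N + 1) → ℂ))}
    {A : Set (MvPolynomial (Fin (N + 1)) k)} {bp : β → MvPolynomial (Fin (N + 1)) k}
    (hA : ∀ F ∈ A, ∃ d, F.IsHomogeneous d) (hbp : ∀ b, ∃ d, (bp b).IsHomogeneous d)
    (hX : ∀ p : Projectivization ℂ (Fin (N + 1) → ℂ), p ∈ X ↔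
      (∀ F ∈ A, aeval p.rep F = 0) ∧ ∃ b, aeval p.rep (bp b) ≠ 0)
    (q : Sg N β → ℂ) (h : ∀ e ∈ eqs A bp, aeval q e = 0) : ∃ y, Over X bp q y := by
  have hm : ∀ i j i' j', q (Sum.inl (i, j)) * q (Sum.inl (i', j')) =
      q (Sum.inl (i, j')) * q (Sum.inl (i', j)) := by
    intro i j i' j'
    have := h _ (Or.inl (Or.inl (Or.inl ⟨i, j, i', j', rfl⟩)))
    simpa [sub_eq_zero] using this
  have ht : ∑ i, q (Sum.inl (i, i)) = 1 := by
    have := h _ (Or.inl (Or.inl (Or.inr rfl)))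
    simpa [sub_eq_zero] using this
  have hAq : ∀ F ∈ A, ∀ j, aeval (fun i => q (Sum.inl (i, j))) F = 0 := by
    intro F hF j
    have := h _ (Or.inl (Or.inr ⟨F, hF, j, rfl⟩))
    rwa [aeval_col] at this
  have hB : ∑ t : β × Fin (N + 1), q (Sum.inr t) *
      aeval (fun i => q (Sum.inl (i, t.2))) (bp t.1) = 1 := by
    have := h _ (Or.inr rfl)
    simpa [sub_eq_zero, aeval_col] using this
  obtain ⟨i0, -, hi0⟩ := Finset.exists_ne_zero_of_sum_ne_zero (ht ▸ one_ne_zero)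
  let u : Fin (N + 1) → ℂ := fun i => q (Sum.inl (i, i0))
  have hu : u ≠ 0 := fun h0 => hi0 (congrFun h0 i0)
  obtain ⟨a, ha⟩ := Projectivization.exists_smul_eq_mk_rep ℂ u hu
  have ha' : ∀ i, (Projectivization.mk ℂ u hu).rep i = (a : ℂ) * u i := by
    intro i
    rw [← ha]
    rfl
  have hq : ∀ i j, q (Sum.inl (i, j)) = (Projectivization.mk ℂ u hu).rep i *
      ((a : ℂ)⁻¹ * (q (Sum.inl (i0, j)) / q (Sum.inl (i0, i0)))) := by
    intro i j
    rw [ha']
    have h1 := hm i j i0 i0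
    have ha0 : (a : ℂ) ≠ 0 := a.ne_zero
    field_simp
    simpa [u] using h1
  have hs : ∑ i, (Projectivization.mk ℂ u hu).rep i *
      ((a : ℂ)⁻¹ * (q (Sum.inl (i0, i)) / q (Sum.inl (i0, i0)))) = 1 := by
    rw [← ht]
    exact Finset.sum_congr rfl fun i _ => (hq i i).symm
  have hcol : ∀ j, (fun i => q (Sum.inl (i, j))) = fun i => (Projectivization.mk ℂ u hu).rep i *
      ((a : ℂ)⁻¹ * (q (Sum.inl (i0, j)) / q (Sum.inl (i0, i0)))) := fun j =>
    funext fun i => hq i j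
  refine ⟨Projectivization.mk ℂ u hu, ?_, ⟨_, hq, hs⟩, hB⟩
  rw [hX]
  constructor
  · intro F hF
    obtain ⟨d, hd⟩ := hA F hF
    obtain ⟨j, -, hj⟩ := Finset.exists_ne_zero_of_sum_ne_zero (hs ▸ one_ne_zero)
    have h1 := hAq F hF j
    rw [hcol, aeval_smul_hom hd] at h1
    rcases mul_eq_zero.1 h1 with h2 | h2
    · exact absurd h2 (pow_ne_zero d (right_ne_zero_of_mul hj))
    · exact h2
  · obtain ⟨t, -, htn⟩ := Finset.exists_ne_zero_of_sum_ne_zero (hB ▸ one_ne_zero)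
    obtain ⟨d, hd⟩ := hbp t.1
    have h1 := right_ne_zero_of_mul htn
    rw [hcol, aeval_smul_hom hd] at h1
    exact ⟨t.1, right_ne_zero_of_mul h1⟩

omit [Fintype β] in
theorem aeval_col_of {q : Sg N β → ℂ}
    {y : Projectivization ℂ (Fin (N + 1) → ℂ)} {w : Fin (N + 1) → ℂ}
    (hw : ∀ i j, q (Sum.inl (i, j)) = y.rep i * w j) {F : MvPolynomial (Fin (N + 1)) k} {d : ℕ}
    (hF : F.IsHomogeneous d) (j : Fin (N + 1)) :
    aeval q (Pool.Agent.X159.DQ.col j F) = w j ^ d * aeval y.rep F := by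
  rw [aeval_col, ← aeval_smul_hom hF]
  congr 1
  congr 1
  exact funext fun i => hw i j

theorem eqs_of_over {X : Set (Projectivization ℂ (Fin (N + 1) → ℂ))}
    {A : Set (MvPolynomial (Fin (N + 1)) k)} {bp : β → MvPolynomial (Fin (N + 1)) k}
    (hA : ∀ F ∈ A, ∃ d, F.IsHomogeneous d)
    (hX : ∀ p : Projectivization ℂ (Fin (N + 1) → ℂ), p ∈ X ↔
      (∀ F ∈ A, aeval p.rep F = 0) ∧ ∃ b, aeval p.rep (bp b) ≠ 0)
    {q : Sg N β → ℂ} {y : Projectivization ℂ (Fin (N + 1) → ℂ)} (h : Over X bp q y) :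
    ∀ e ∈ eqs A bp, aeval q e = 0 := by
  obtain ⟨hy, ⟨w, hw, hw1⟩, hB⟩ := h
  rintro e (((⟨i, j, i', j', rfl⟩ | rfl) | ⟨F, hF, j, rfl⟩) | rfl)
  · simp only [map_sub, map_mul, aeval_X, hw]; ring
  · simp only [map_sub, map_sum, aeval_X, hw, hw1, map_one, sub_self]
  · obtain ⟨d, hd⟩ := hA F hF
    rw [aeval_col_of hw hd, ((hX y).1 hy).1 F hF, mul_zero]
  · simp only [map_sub, map_sum, map_mul, aeval_X, map_one, aeval_col]
    rw [hB, sub_self]

/-- **The lift of a self-map.** -/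
theorem exists_lift {X : Set (Projectivization ℂ (Fin (N + 1) → ℂ))}
    {A : Set (MvPolynomial (Fin (N + 1)) k)} {bp : β → MvPolynomial (Fin (N + 1)) k}
    (hA : ∀ F ∈ A, ∃ d, F.IsHomogeneous d) (hbp : ∀ b, ∃ d, (bp b).IsHomogeneous d)
    (hX : ∀ p : Projectivization ℂ (Fin (N + 1) → ℂ), p ∈ X ↔
      (∀ F ∈ A, aeval p.rep F = 0) ∧ ∃ b, aeval p.rep (bp b) ≠ 0)
    (Φ : Projectivization ℂ (Fin (N + 1) → ℂ) → Projectivization ℂ (Fin (N + 1) → ℂ))
    (hΦX : ∀ x ∈ X, Φ x ∈ X)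
    (hΦ : ∀ x ∈ X, ∃ (d e : ℕ) (F : Fin (N + 1) → MvPolynomial (Fin (N + 1)) k)
      (g : MvPolynomial (Fin (N + 1)) k),
      (∀ i, (F i).IsHomogeneous d) ∧ g.IsHomogeneous e ∧ aeval x.rep g ≠ 0 ∧
      ∀ y ∈ X, aeval y.rep g ≠ 0 →
        (fun i : Fin (N + 1) => aeval y.rep (F i)) ≠ 0 ∧
        (fun i : Fin (N + 1) => aeval y.rep (F i)) ∈ (Φ y).submodule) :
    ∃ f : Sg N β → MvPolynomial (Sg N β) k, ∀ q y, Over X bp q y →
      Over X bp (fun s => aeval q (f s)) (Φ y) := by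
  classical
  choose d e F g hF hg hgx hloc using fun x : X => hΦ x.1 x.2
  -- the first partition of unity
  obtain ⟨c, hc⟩ := nss (eqs A bp)
    (fun t : X × Fin (N + 1) × Fin (N + 1) => col (β := β) t.2.1 (g t.1) *
      col (β := β) t.2.1 (F t.1 t.2.2)) (by
    intro q hq
    obtain ⟨y, hy, ⟨w, hw, hw1⟩, -⟩ := over_of_eqs hA hbp hX q hq
    obtain ⟨j, -, hj⟩ := Finset.exists_ne_zero_of_sum_ne_zero (hw1 ▸ one_ne_zero)
    have hwj : w j ≠ 0 := right_ne_zero_of_mul hj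
    have h1 := (hloc ⟨y, hy⟩ y hy (hgx ⟨y, hy⟩)).1
    obtain ⟨i, hi⟩ := Function.ne_iff.1 h1
    refine ⟨(⟨y, hy⟩, j, i), ?_⟩
    rw [map_mul, aeval_col_of hw (hg _), aeval_col_of hw (hF _ _)]
    exact mul_ne_zero (mul_ne_zero (pow_ne_zero _ hwj) (hgx ⟨y, hy⟩))
      (mul_ne_zero (pow_ne_zero _ hwj) hi))
  let P : Fin (N + 1) → Fin (N + 1) → MvPolynomial (Sg N β) k := fun i j =>
    c.sum fun t ct => if t.2.2 = j then ct * (col (β := β) t.2.1 (g t.1) *
      col (β := β) t.2.1 (F t.1 i)) else 0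
  have hP : ∀ q y, Over X bp q y → ∃ w : Fin (N + 1) → ℂ,
      (∀ i j, aeval q (P i j) = (Φ y).rep i * w j) ∧ ∑ i, (Φ y).rep i * w i = 1 := by
    intro q y hqy
    obtain ⟨hy, ⟨w, hw, hw1⟩, hB⟩ := hqy
    have hqe : ∀ e ∈ eqs A bp, aeval q e = 0 := eqs_of_over hA hX ⟨hy, ⟨w, hw, hw1⟩, hB⟩
    have hμ : ∀ t : X × Fin (N + 1) × Fin (N + 1), ∃ μ : ℂ, ∀ i,
        aeval q (col (β := β) t.2.1 (g t.1)) * aeval q (col (β := β) t.2.1 (F t.1 i)) =
        (Φ y).rep i * μ := by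
      intro t
      by_cases h0 : aeval q (col (β := β) t.2.1 (g t.1)) = 0
      · exact ⟨0, fun i => by rw [h0]; ring⟩
      · have h1 : aeval y.rep (g t.1) ≠ 0 := by
          intro h2
          apply h0
          rw [aeval_col_of hw (hg _), h2, mul_zero]
        obtain ⟨-, h2⟩ := hloc t.1 y hy h1
        rw [Projectivization.submodule_eq, Submodule.mem_span_singleton] at h2
        obtain ⟨l, hl⟩ := h2
        refine ⟨aeval q (col (β := β) t.2.1 (g t.1)) * (w t.2.1 ^ d t.1 * l), fun i => ?_⟩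
        rw [aeval_col_of hw (hF t.1 i) t.2.1]
        have h3 : aeval y.rep (F t.1 i) = l * (Φ y).rep i := (congrFun hl i).symm
        rw [h3]
        ring
    choose μ hμ using hμ
    have hPe : ∀ i j, aeval q (P i j) = (Φ y).rep i *
        c.sum fun t ct => if t.2.2 = j then aeval q ct * μ t else 0 := by
      intro i j
      simp only [P, Finsupp.sum, map_sum, Finset.mul_sum]
      refine Finset.sum_congr rfl fun t _ => ?_
      split
      · rw [map_mul, map_mul, hμ t i]; ring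
      · simp
    refine ⟨_, hPe, ?_⟩
    rw [← hc q hqe]
    simp only [Finsupp.sum, Finset.mul_sum]
    rw [Finset.sum_comm]
    refine Finset.sum_congr rfl fun t _ => ?_
    simp only [mul_ite, mul_zero, Finset.sum_ite_eq, Finset.mem_univ, if_true]
    rw [map_mul, hμ t t.2.2]
    ring
  -- the second partition of unity
  obtain ⟨c2, hc2⟩ := nss (eqs A bp)
    (fun t : β × Fin (N + 1) => bind₁ (fun i => P i t.2) (bp t.1)) (by
    intro q hq
    obtain ⟨y, hqy⟩ := over_of_eqs hA hbp hX q hq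
    obtain ⟨w, hw, hw1⟩ := hP q y hqy
    obtain ⟨j, -, hj⟩ := Finset.exists_ne_zero_of_sum_ne_zero (hw1 ▸ one_ne_zero)
    have hwj : w j ≠ 0 := right_ne_zero_of_mul hj
    obtain ⟨b, hb⟩ := ((hX (Φ y)).1 (hΦX y hqy.1)).2
    obtain ⟨e', he'⟩ := hbp b
    refine ⟨(b, j), ?_⟩
    have h1 : (fun i => aeval q (P i j)) = fun i => (Φ y).rep i * w j := funext fun i => hw i j
    rw [aeval_bind₁, h1, aeval_smul_hom he']
    exact mul_ne_zero (pow_ne_zero _ hwj) hb)
  refine ⟨Sum.elim (fun ij => P ij.1 ij.2) c2, fun q y hqy => ?_⟩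
  obtain ⟨w, hw, hw1⟩ := hP q y hqy
  refine ⟨hΦX y hqy.1, ⟨w, hw, hw1⟩, ?_⟩
  have h2 := hc2 q (eqs_of_over hA hX hqy)
  rw [Finsupp.sum_fintype _ _ (by simp)] at h2
  rw [← h2]
  refine Finset.sum_congr rfl fun t _ => ?_
  simp only [Sum.elim_inr, Sum.elim_inl, aeval_bind₁]

/-- the values at a point of a closed set -/
theorem mem_iff_col {X : Set (Projectivization ℂ (Fin (N + 1) → ℂ))}
    {bp : β → MvPolynomial (Fin (N + 1)) k} {q : Sg N β → ℂ}
    {y : Projectivization ℂ (Fin (N + 1) → ℂ)} (h : Over X bp q y)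
    {C : Set (MvPolynomial (Fin (N + 1)) k)} (hC : ∀ F ∈ C, ∃ d, F.IsHomogeneous d) :
    (∀ F ∈ C, aeval y.rep F = 0) ↔
      ∀ G ∈ {G | ∃ F ∈ C, ∃ j, G = col (β := β) j F}, aeval q G = 0 := by
  obtain ⟨-, ⟨w, hw, hw1⟩, -⟩ := h
  constructor
  · rintro hF G ⟨F, hFC, j, rfl⟩
    obtain ⟨d, hd⟩ := hC F hFC
    rw [aeval_col_of hw hd, hF F hFC, mul_zero]
  · intro hG F hFC
    obtain ⟨d, hd⟩ := hC F hFC
    obtain ⟨j, -, hj⟩ := Finset.exists_ne_zero_of_sum_ne_zero (hw1 ▸ one_ne_zero)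
    have h1 := hG _ ⟨F, hFC, j, rfl⟩
    rw [aeval_col_of hw hd] at h1
    exact (mul_eq_zero.1 h1).resolve_left (pow_ne_zero d (right_ne_zero_of_mul hj))

/-- the point over a rational point -/
theorem exists_over {X : Set (Projectivization ℂ (Fin (N + 1) → ℂ))}
    {bp : β → MvPolynomial (Fin (N + 1)) k} (hbp : ∀ b, ∃ d, (bp b).IsHomogeneous d)
    (hX : ∀ p ∈ X, ∃ b, aeval p.rep (bp b) ≠ 0)
    {y : Projectivization ℂ (Fin (N + 1) → ℂ)} (hy : y ∈ X) (a : Fin (N + 1) → k)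
    (ha : a ≠ 0) (hay : (fun i => algebraMap k ℂ (a i)) ∈ y.submodule) :
    ∃ q : Sg N β → k, Over X bp (fun s => algebraMap k ℂ (q s)) y := by
  classical
  rw [Projectivization.submodule_eq, Submodule.mem_span_singleton] at hay
  obtain ⟨l, hl⟩ := hay
  have hl' : ∀ i, algebraMap k ℂ (a i) = l * y.rep i := fun i => (congrFun hl i).symm
  obtain ⟨i0, hi0⟩ := Function.ne_iff.1 ha
  have hi0' : a i0 ≠ 0 := hi0
  have hai : algebraMap k ℂ (a i0) ≠ 0 := by simpa using hi0'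
  have hl0 : l ≠ 0 := by
    intro h0
    apply hai
    rw [hl', h0, zero_mul]
  let w : Fin (N + 1) → k := Pi.single i0 (a i0)⁻¹
  have hw : ∀ i j, algebraMap k ℂ (a i * w j) = y.rep i * (l * algebraMap k ℂ (w j)) := by
    intro i j
    rw [map_mul, hl']
    ring
  have hw1 : ∑ i, y.rep i * (l * algebraMap k ℂ (w i)) = 1 := by
    rw [Finset.sum_eq_single i0]
    · rw [← hw]
      simp [w, hi0']
    · intro b _ hb
      simp [w, Pi.single_apply, hb]
    · simp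
  obtain ⟨b, hb⟩ := hX y hy
  obtain ⟨e, he⟩ := hbp b
  have hbk : aeval (fun i => algebraMap k ℂ (a i * w i0)) (bp b) ≠ 0 := by
    have : (fun i => algebraMap k ℂ (a i * w i0)) =
        fun i => y.rep i * (l * algebraMap k ℂ (w i0)) := funext fun i => hw i i0
    rw [this, aeval_smul_hom he]
    refine mul_ne_zero (pow_ne_zero _ (mul_ne_zero hl0 ?_)) hb
    simpa [w] using hi0'
  have hev : ∀ b' j, aeval (fun i => algebraMap k ℂ (a i * w j)) (bp b') =
      algebraMap k ℂ (eval (fun i => a i * w j) (bp b')) := by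
    intro b' j
    rw [show (fun i => algebraMap k ℂ (a i * w j)) = (algebraMap k ℂ) ∘ (fun i => a i * w j)
      from rfl, aeval_algebraMap_apply]
    simp
  refine ⟨Sum.elim (fun ij => a ij.1 * w ij.2)
    (Pi.single (b, i0) (eval (fun i => a i * w i0) (bp b))⁻¹), hy,
    ⟨_, fun i j => hw i j, hw1⟩, ?_⟩
  simp only [Sum.elim_inr, Sum.elim_inl]
  rw [Finset.sum_eq_single (b, i0)]
  · rw [hev, ← map_mul, Pi.single_eq_same, inv_mul_cancel₀, map_one]
    intro h0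
    apply hbk
    rw [hev, h0, map_zero]
  · intro t _ ht
    rw [Pi.single_apply, if_neg ht]
    simp
  · simp

end jou

end Pool.Agent.X159.DQ
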