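import Pool.Agent.X159.DQ.Jou

set_option autoImplicit false

/-!
# The dynamical Mordell-Lang conjecture and the maps `z ↦ B (z_0 ^ 2, …, z_M ^ 2)`
-/

namespace Pool.Agent.X159.DQ

open MvPolynomial

/-- the complex projective space -/
abbrev PP (N : ℕ) : Type := Projectivization ℂ (Fin (N + 1) → ℂ)

/-- `X` is a locally closed subset of the projective space over `k`, `Φ` a regular self-map of `X`
over `k` (locally given by forms over `k`), `α` a `k`-rational point of `X`, and `V` a closed set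
over `k`. For `k = ℂ` these are the data in the conjecture. -/
def IsDatum (k : Type) [Field k] [Algebra k ℂ] (N : ℕ) (X : Set (PP N)) (Φ : PP N → PP N)
    (α : PP N) (V : Set (PP N)) : Prop :=
  (∃ A B : Set (MvPolynomial (Fin (N + 1)) k),
    (∀ F ∈ A, ∃ d : ℕ, F.IsHomogeneous d) ∧ (∀ F ∈ B, ∃ d : ℕ, F.IsHomogeneous d) ∧
    ∀ p : PP N, p ∈ X ↔ ((∀ F ∈ A, aeval p.rep F = 0) ∧ ∃ F ∈ B, aeval p.rep F ≠ 0)) ∧
  (∀ x ∈ X, Φ x ∈ X) ∧
  (∀ x ∈ X, ∃ (d e : ℕ) (F : Fin (N + 1) → MvPolynomial (Fin (N + 1)) k)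
      (g : MvPolynomial (Fin (N + 1)) k),
      (∀ i, (F i).IsHomogeneous d) ∧ g.IsHomogeneous e ∧ aeval x.rep g ≠ 0 ∧
      ∀ y ∈ X, aeval y.rep g ≠ 0 →
        (fun i : Fin (N + 1) => aeval y.rep (F i)) ≠ 0 ∧
        (fun i : Fin (N + 1) => aeval y.rep (F i)) ∈ (Φ y).submodule) ∧
  α ∈ X ∧
  (∃ a : Fin (N + 1) → k, a ≠ 0 ∧ (fun i => algebraMap k ℂ (a i)) ∈ α.submodule) ∧
  (∃ C : Set (MvPolynomial (Fin (N + 1)) k), (∀ F ∈ C, ∃ d : ℕ, F.IsHomogeneous d) ∧
    ∀ p : PP N, p ∈ V ↔ ∀ F ∈ C, aeval p.rep F = 0)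

/-- the dynamical Mordell-Lang conjecture for the data over `k` -/
def DMLover (k : Type) [Field k] [Algebra k ℂ] : Prop :=
  ∀ (N : ℕ) (X : Set (PP N)) (Φ : PP N → PP N) (α : PP N) (V : Set (PP N)),
    IsDatum k N X Φ α V → IsAP {n : ℕ | Φ^[n] α ∈ V}

/-- for all integral matrices `B` and all vectors `z` over `R` the set of the `n` such that the first
coordinate of the `n`-th iterate of `z` under `z ↦ B (z_0 ^ 2, …, z_M ^ 2)` is zero is a finite
union of arithmetic progressions -/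
def SqAP (R : Type) [CommRing R] : Prop :=
  ∀ (M : ℕ) (B : Fin (M + 1) → Fin (M + 1) → ℤ) (z : Fin (M + 1) → R),
    IsAP {n : ℕ | (sqm B)^[n] z 0 = 0}

/-- finitely many equations suffice -/
theorem exists_finset {σ : Type*} [Finite σ] {k : Type*} [Field k] [Algebra k ℂ]
    (G : Set (MvPolynomial σ k)) : ∃ G0 : Finset (MvPolynomial σ k), (G0 : Set _) ⊆ G ∧
    ∀ q : σ → ℂ, (∀ g ∈ G, aeval q g = 0) ↔ ∀ g ∈ G0, aeval q g = 0 := by
  obtain ⟨G0, h1, h2⟩ := (Submodule.fg_span_iff_fg_span_finset_subset (R := MvPolynomial σ k) G).1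
    (IsNoetherian.noetherian _)
  refine ⟨G0, h1, fun q => ⟨fun h g hg => h g (h1 hg), fun h g hg => ?_⟩⟩
  have h3 : g ∈ Ideal.span (G0 : Set (MvPolynomial σ k)) := by
    have : g ∈ Submodule.span (MvPolynomial σ k) G := Submodule.subset_span hg
    rw [h2] at this
    exact this
  have h4 : Ideal.span (G0 : Set (MvPolynomial σ k)) ≤
      RingHom.ker (aeval q : MvPolynomial σ k →ₐ[k] ℂ).toRingHom :=
    Ideal.span_le.2 fun e he => h e he
  exact h4 h3

/-- **Every return set is a finite intersection of zero sets of the maps `z ↦ B (z_j ^ 2)`.** -/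
theorem return_set (k : Type) [Field k] [Algebra k ℂ] (N : ℕ) (X : Set (PP N)) (Φ : PP N → PP N)
    (α : PP N) (V : Set (PP N)) (h : IsDatum k N X Φ α V) :
    ∃ (r : ℕ) (K M : Fin r → ℕ) (B : ∀ t, Fin (M t + 1) → Fin (M t + 1) → ℤ)
      (z : ∀ t, Fin (M t + 1) → k), (∀ t, 0 < K t) ∧
      ∀ n, Φ^[n] α ∈ V ↔ ∀ t, (sqm (B t))^[K t * (n + 1)] (z t) 0 = 0 := by
  classical
  have hinj : Function.Injective (algebraMap k ℂ) := (algebraMap k ℂ).injective
  haveI : CharZero k := (algebraMap k ℂ).charZero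
  obtain ⟨⟨A, B, hA, hB, hX⟩, hΦX, hΦ, hα, ⟨a, ha0, haα⟩, ⟨C, hC, hV⟩⟩ := h
  obtain ⟨B0, hB0, hB0'⟩ := exists_finset B
  let bp : B0 → MvPolynomial (Fin (N + 1)) k := fun b => b.1
  have hbp : ∀ b : B0, ∃ d, (bp b).IsHomogeneous d := fun b => hB b.1 (hB0 b.2)
  have hX' : ∀ p : PP N, p ∈ X ↔ (∀ F ∈ A, aeval p.rep F = 0) ∧ ∃ b, aeval p.rep (bp b) ≠ 0 := by
    intro p
    rw [hX]
    refine and_congr_right fun _ => ?_
    have := not_congr (hB0' p.rep)
    push Not at this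
    rw [this]
    exact ⟨fun ⟨g, hg, h⟩ => ⟨⟨g, hg⟩, h⟩, fun ⟨g, h⟩ => ⟨g.1, g.2, h⟩⟩
  obtain ⟨f, hf⟩ := exists_lift (β := B0) hA hbp hX' Φ hΦX hΦ
  obtain ⟨q0, hq0⟩ := exists_over (β := B0) hbp (fun p hp => ((hX' p).1 hp).2) hα a ha0 haα
  have hev : ∀ (q : Sg N B0 → k) (p : MvPolynomial (Sg N B0) k),
      aeval (fun s => algebraMap k ℂ (q s)) p = algebraMap k ℂ (eval q p) := by
    intro q p
    rw [show (fun i => algebraMap k ℂ (q i)) = (algebraMap k ℂ) ∘ q from rfl,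
      aeval_algebraMap_apply]
    simp
  have hover : ∀ n, Over X bp (fun s => algebraMap k ℂ
      ((fun (y : Sg N B0 → k) i => eval y (f i))^[n] q0 s)) (Φ^[n] α) := by
    intro n
    induction n with
    | zero => exact hq0
    | succ n ih =>
      have := hf _ _ ih
      rw [Function.iterate_succ_apply', Function.iterate_succ_apply']
      simpa only [hev] using this
  obtain ⟨G0, -, hG0⟩ := exists_finset {G : MvPolynomial (Sg N B0) k | ∃ F ∈ C, ∃ j, G = col j F}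
  have hmem : ∀ n, Φ^[n] α ∈ V ↔ ∀ g ∈ G0,
      eval ((fun (y : Sg N B0 → k) i => eval y (f i))^[n] q0) g = 0 := by
    intro n
    rw [hV, mem_iff_col (hover n) hC, hG0]
    refine forall₂_congr fun g _ => ?_
    rw [hev, map_eq_zero_iff _ hinj]
  choose K M B z hK hBz using fun g : MvPolynomial (Sg N B0) k => cpoly_sqm f q0 g
  let e := G0.equivFin
  refine ⟨G0.card, fun t => K (e.symm t).1, fun t => M (e.symm t).1, fun t => B (e.symm t).1,
    fun t => z (e.symm t).1, fun t => hK _, fun n => ?_⟩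
  rw [hmem]
  constructor
  · intro h t
    exact (hBz _ n).1 (h _ (e.symm t).2)
  · intro h g hg
    obtain ⟨t, ht⟩ : ∃ t, e.symm t = ⟨g, hg⟩ := ⟨e ⟨g, hg⟩, e.symm_apply_apply _⟩
    have h5 := (hBz (e.symm t).1 n).2 (h t)
    rwa [ht] at h5

theorem dml_of_sqAP (k : Type) [Field k] [Algebra k ℂ] (h : SqAP k) : DMLover k := by
  intro N X Φ α V hd
  obtain ⟨r, K, M, B, z, hK, hn⟩ := return_set k N X Φ α V hd
  apply EvPer.isAP
  have h1 : EvPer {n | ∀ t ∈ (Finset.univ : Finset (Fin r)),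
      n ∈ {n | K t * (n + 1) ∈ {m | (sqm (B t))^[m] (z t) 0 = 0}}} :=
    EvPer.forall_mem _ _ fun t _ => (h _ (B t) (z t)).evPer.comap (K t) (hK t) 1
  convert h1 using 1
  ext n
  have h2 := hn n
  simp only [Set.mem_setOf_eq, Finset.mem_univ, forall_true_left]
  exact h2

/-! ### The converse -/

section conv

variable {M : ℕ} (B : Fin (M + 1) → Fin (M + 1) → ℤ)

/-- the map in homogeneous coordinates -/
noncomputable def hsq (v : Fin (M + 1 + 1) → ℂ) : Fin (M + 1 + 1) → ℂ :=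
  Fin.cons (v 0 ^ 2) (sqm B fun i => v i.succ)

open Classical in
/-- the map on the affine part of the projective space -/
noncomputable def Phi (p : PP (M + 1)) : PP (M + 1) :=
  if h : hsq B p.rep ≠ 0 then Projectivization.mk ℂ (hsq B p.rep) h else p

theorem hsq_ne {v : Fin (M + 1 + 1) → ℂ} (h : v 0 ≠ 0) : hsq B v ≠ 0 := by
  intro h0
  have := congrFun h0 0
  simp only [hsq, Fin.cons_zero, Pi.zero_apply] at this
  exact h (pow_eq_zero_iff two_ne_zero |>.1 this)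

theorem Phi_of {p : PP (M + 1)} (h : p.rep 0 ≠ 0) :
    Phi B p = Projectivization.mk ℂ (hsq B p.rep) (hsq_ne B h) := by
  rw [Phi, dif_pos (hsq_ne B h)]

theorem Phi_mk (w : Fin (M + 1) → ℂ) (h : (Fin.cons 1 w : Fin (M + 1 + 1) → ℂ) ≠ 0)
    (h' : (Fin.cons 1 (sqm B w) : Fin (M + 1 + 1) → ℂ) ≠ 0) :
    Phi B (Projectivization.mk ℂ (Fin.cons 1 w) h) =
      Projectivization.mk ℂ (Fin.cons 1 (sqm B w)) h' := by
  obtain ⟨a, ha⟩ := Projectivization.exists_smul_eq_mk_rep ℂ _ h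
  have ha0 : (Projectivization.mk ℂ _ h).rep 0 = (a : ℂ) := by
    rw [← ha]
    simp [Units.smul_def]
  rw [Phi_of B (by rw [ha0]; exact a.ne_zero), Projectivization.mk_eq_mk_iff']
  refine ⟨(a : ℂ) ^ 2, ?_⟩
  rw [← ha]
  funext i
  refine Fin.cases ?_ (fun i => ?_) i
  · simp [hsq, Units.smul_def]
  · simp only [hsq, Pi.smul_apply, Fin.cons_succ, Units.smul_def, smul_eq_mul]
    have := congrFun (sqm_scale (a : ℂ) B w 1) i
    simp only [Function.iterate_one, pow_one] at this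
    exact this.symm

theorem cons_one_ne (w : Fin (M + 1) → ℂ) : (Fin.cons 1 w : Fin (M + 1 + 1) → ℂ) ≠ 0 := by
  intro h0
  have := congrFun h0 0
  simp at this

theorem mk_cons_rep (w : Fin (M + 1) → ℂ) : ∃ a : ℂ, a ≠ 0 ∧ ∀ i,
    (Projectivization.mk ℂ (Fin.cons 1 w : Fin (M + 1 + 1) → ℂ) (cons_one_ne w)).rep i =
      a * (Fin.cons 1 w : Fin (M + 1 + 1) → ℂ) i := by
  obtain ⟨a, ha⟩ := Projectivization.exists_smul_eq_mk_rep ℂ _ (cons_one_ne w)
  refine ⟨a, a.ne_zero, fun i => ?_⟩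
  rw [← ha]
  rfl

theorem isDatum_sq (k : Type) [Field k] [Algebra k ℂ] (z : Fin (M + 1) → k) :
    IsDatum k (M + 1) {p | p.rep 0 ≠ 0} (Phi B)
      (Projectivization.mk ℂ (Fin.cons 1 fun i => algebraMap k ℂ (z i)) (cons_one_ne _))
      {p | p.rep 1 = 0} := by
  have hX : ∀ x : PP (M + 1), x.rep 0 ≠ 0 → (Phi B x).rep 0 ≠ 0 := by
    intro x hx
    rw [Phi_of B hx]
    obtain ⟨a, ha⟩ := Projectivization.exists_smul_eq_mk_rep ℂ _ (hsq_ne B hx)
    rw [← ha]
    simp only [hsq, Pi.smul_apply, Fin.cons_zero, Units.smul_def, smul_eq_mul]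
    exact mul_ne_zero a.ne_zero (pow_ne_zero _ hx)
  refine ⟨⟨∅, {X 0}, by simp, ?_, fun p => by simp⟩, hX, ?_, ?_, ?_, ⟨{X 1}, ?_, fun p => by simp⟩⟩
  · intro F hF
    rw [Set.mem_singleton_iff.1 hF]
    exact ⟨1, isHomogeneous_X _ _⟩
  · intro x hx
    refine ⟨2, 1, Fin.cons (X 0 ^ 2) fun i => ∑ j, C (B i j : k) * X j.succ ^ 2, X 0, ?_,
      isHomogeneous_X _ _, by simpa using hx, ?_⟩
    · intro i
      refine Fin.cases ?_ (fun i => ?_) i
      · simpa using isHomogeneous_X_pow (R := k) (0 : Fin (M + 1 + 1)) 2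
      · simp only [Fin.cons_succ]
        exact IsHomogeneous.sum _ _ _ fun j _ => isHomogeneous_C_mul_X_pow _ _ _
    · intro y hy _
      have he : (fun i : Fin (M + 1 + 1) => aeval y.rep
          ((Fin.cons (X 0 ^ 2) fun i => ∑ j, C (B i j : k) * X j.succ ^ 2 :
            Fin (M + 1 + 1) → MvPolynomial (Fin (M + 1 + 1)) k) i)) = hsq B y.rep := by
        funext i
        refine Fin.cases ?_ (fun i => ?_) i
        · simp [hsq]
        · simp [hsq, sqm]
      rw [he]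
      refine ⟨hsq_ne B hy, ?_⟩
      rw [Phi_of B hy, Projectivization.submodule_mk]
      exact Submodule.mem_span_singleton_self _
  · obtain ⟨a, ha, h⟩ := mk_cons_rep fun i => algebraMap k ℂ (z i)
    show _ ≠ _
    rw [h]
    simpa using ha
  · refine ⟨Fin.cons 1 z, ?_, ?_⟩
    · intro h0
      have := congrFun h0 0
      simp at this
    · rw [Projectivization.submodule_mk]
      have : (fun i => algebraMap k ℂ ((Fin.cons 1 z : Fin (M + 1 + 1) → k) i)) =
          (Fin.cons 1 (fun i => algebraMap k ℂ (z i)) : Fin (M + 1 + 1) → ℂ) := by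
        funext i
        refine Fin.cases ?_ (fun i => ?_) i <;> simp
      rw [this]
      exact Submodule.mem_span_singleton_self _
  · intro F hF
    rw [Set.mem_singleton_iff.1 hF]
    exact ⟨1, isHomogeneous_X _ _⟩

theorem Phi_iter (w : Fin (M + 1) → ℂ) (n : ℕ) :
    (Phi B)^[n] (Projectivization.mk ℂ (Fin.cons 1 w) (cons_one_ne w)) =
      Projectivization.mk ℂ (Fin.cons 1 ((sqm B)^[n] w)) (cons_one_ne _) := by
  induction n with
  | zero => rfl
  | succ n ih =>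
    rw [Function.iterate_succ_apply', ih, Phi_mk B _ _ (cons_one_ne _)]
    congr 1
    rw [Function.iterate_succ_apply']

end conv

theorem sqAP_of_dml (k : Type) [Field k] [Algebra k ℂ] (h : DMLover k) : SqAP k := by
  intro M B z
  have h1 := h _ _ _ _ _ (isDatum_sq B k z)
  convert h1 using 1
  ext n
  simp only [Set.mem_setOf_eq]
  rw [Phi_iter]
  obtain ⟨a, ha, h2⟩ := mk_cons_rep ((sqm B)^[n] fun i => algebraMap k ℂ (z i))
  rw [h2, show (1 : Fin (M + 1 + 1)) = Fin.succ 0 from rfl, Fin.cons_succ, sqm_map]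
  simp [ha]

theorem dml_iff (k : Type) [Field k] [Algebra k ℂ] : DMLover k ↔ SqAP k :=
  ⟨sqAP_of_dml k, dml_of_sqAP k⟩

end Pool.Agent.X159.DQ
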