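import Mathlib

set_option autoImplicit false

/-!
# Finite unions of arithmetic progressions
-/

namespace Pool.Agent.X159.DQ

/-- finite unions of arithmetic progressions `{a + r k}` (`r = 0` allowed) -/
def IsAP (S : Set ℕ) : Prop :=
  ∃ T : Finset (ℕ × ℕ), S = {n : ℕ | ∃ t ∈ T, ∃ k : ℕ, n = t.1 + t.2 * k}

/-- eventually periodic sets -/
def EvPer (S : Set ℕ) : Prop := ∃ N p : ℕ, 0 < p ∧ ∀ n, N ≤ n → (n ∈ S ↔ n + p ∈ S)

theorem EvPer.mul {S : Set ℕ} {N p : ℕ} (h : ∀ n, N ≤ n → (n ∈ S ↔ n + p ∈ S)) (k n : ℕ)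
    (hn : N ≤ n) : n ∈ S ↔ n + p * k ∈ S := by
  induction k with
  | zero => simp
  | succ k ih =>
    rw [ih, h (n + p * k) (le_trans hn (Nat.le_add_right _ _)), Nat.mul_succ, Nat.add_assoc]

theorem EvPer.isAP {S : Set ℕ} (h : EvPer S) : IsAP S := by
  classical
  obtain ⟨N, p, hp, h⟩ := h
  refine ⟨((Finset.range N).filter (· ∈ S)).image (fun n => (n, 0)) ∪
    ((Finset.range p).filter (fun r => N + r ∈ S)).image (fun r => (N + r, p)), ?_⟩
  ext n
  simp only [Set.mem_setOf_eq, Finset.mem_union, Finset.mem_image, Finset.mem_filter,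
    Finset.mem_range]
  constructor
  · intro hn
    by_cases hN : n < N
    · exact ⟨(n, 0), Or.inl ⟨n, ⟨hN, hn⟩, rfl⟩, 0, by simp⟩
    · have hN' : N ≤ n := not_lt.mp hN
      have hdiv := Nat.mod_add_div (n - N) p
      have e : n = N + (n - N) % p + p * ((n - N) / p) := by omega
      refine ⟨(N + (n - N) % p, p), Or.inr ⟨(n - N) % p, ⟨Nat.mod_lt _ hp, ?_⟩, rfl⟩,
        (n - N) / p, e⟩
      rw [EvPer.mul h ((n - N) / p) _ (Nat.le_add_right _ _), ← e]
      exact hn
  · rintro ⟨t, ht | ht, k, hk⟩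
    · obtain ⟨m, ⟨-, hm⟩, rfl⟩ := ht
      simp only [zero_mul, add_zero] at hk
      rw [hk]; exact hm
    · obtain ⟨r, ⟨-, hr⟩, rfl⟩ := ht
      rw [hk]
      exact (EvPer.mul h k _ (Nat.le_add_right _ _)).1 hr

theorem EvPer.empty : EvPer (∅ : Set ℕ) := ⟨0, 1, one_pos, fun n _ => by simp⟩

theorem EvPer.univ : EvPer (Set.univ : Set ℕ) := ⟨0, 1, one_pos, fun n _ => by simp⟩

theorem EvPer.inter {S S' : Set ℕ} (h : EvPer S) (h' : EvPer S') : EvPer (S ∩ S') := by
  obtain ⟨N, p, hp, h⟩ := h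
  obtain ⟨N', p', hp', h'⟩ := h'
  refine ⟨max N N', p * p', Nat.mul_pos hp hp', fun n hn => ?_⟩
  have h1 := EvPer.mul h p' n (le_trans (le_max_left _ _) hn)
  have h2 := EvPer.mul h' p n (le_trans (le_max_right _ _) hn)
  rw [Nat.mul_comm p' p] at h2
  exact and_congr h1 h2

theorem EvPer.union {S S' : Set ℕ} (h : EvPer S) (h' : EvPer S') : EvPer (S ∪ S') := by
  obtain ⟨N, p, hp, h⟩ := h
  obtain ⟨N', p', hp', h'⟩ := h'
  refine ⟨max N N', p * p', Nat.mul_pos hp hp', fun n hn => ?_⟩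
  have h1 := EvPer.mul h p' n (le_trans (le_max_left _ _) hn)
  have h2 := EvPer.mul h' p n (le_trans (le_max_right _ _) hn)
  rw [Nat.mul_comm p' p] at h2
  exact or_congr h1 h2

theorem IsAP.evPer {S : Set ℕ} (h : IsAP S) : EvPer S := by
  classical
  obtain ⟨T, rfl⟩ := h
  induction T using Finset.induction_on with
  | empty => simpa using EvPer.empty
  | insert t T _ ih =>
    have h1 : EvPer {n : ℕ | ∃ k : ℕ, n = t.1 + t.2 * k} := by
      rcases Nat.eq_zero_or_pos t.2 with h0 | h0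
      · refine ⟨t.1 + 1, 1, one_pos, fun n hn => ?_⟩
        simp only [Set.mem_setOf_eq, h0, zero_mul, add_zero, exists_const]
        omega
      · refine ⟨t.1, t.2, h0, fun n hn => ?_⟩
        simp only [Set.mem_setOf_eq]
        constructor
        · rintro ⟨k, hk⟩
          exact ⟨k + 1, by rw [mul_add, mul_one]; omega⟩
        · rintro ⟨k, hk⟩
          rcases k with _ | k
          · exact ⟨0, by simp only [mul_zero, add_zero] at hk ⊢; omega⟩
          · exact ⟨k, by rw [mul_add, mul_one] at hk; omega⟩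
    have h2 := h1.union ih
    convert h2 using 1
    ext n
    simp only [Finset.mem_insert, exists_eq_or_imp, Set.mem_setOf_eq, Set.mem_union]

theorem isAP_iff {S : Set ℕ} : IsAP S ↔ EvPer S := ⟨IsAP.evPer, EvPer.isAP⟩

theorem EvPer.forall_mem {ι : Type*} (G : Finset ι) (S : ι → Set ℕ)
    (h : ∀ g ∈ G, EvPer (S g)) : EvPer {n | ∀ g ∈ G, n ∈ S g} := by
  classical
  induction G using Finset.induction_on with
  | empty => simpa using EvPer.univ
  | insert t T _ ih =>
    have h2 := (h t (Finset.mem_insert_self _ _)).inter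
      (ih fun g hg => h g (Finset.mem_insert_of_mem hg))
    convert h2 using 1
    ext n
    simp only [Finset.mem_insert, forall_eq_or_imp, Set.mem_setOf_eq, Set.mem_inter_iff]

theorem EvPer.comap {S : Set ℕ} (h : EvPer S) (k : ℕ) (hk : 0 < k) (c : ℕ) :
    EvPer {n | k * (n + c) ∈ S} := by
  obtain ⟨N, p, hp, h⟩ := h
  refine ⟨N, p, hp, fun n hn => ?_⟩
  have h1 := EvPer.mul h k (k * (n + c)) (by nlinarith)
  simp only [Set.mem_setOf_eq]
  rw [h1]
  have : k * (n + c) + p * k = k * (n + p + c) := by ring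
  rw [this]

end Pool.Agent.X159.DQ
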