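import Pool.Agent.X159.DQ.Per

set_option autoImplicit false

/-!
# Polynomial recurrences and the maps `z ↦ B (z_0 ^ 2, …, z_M ^ 2)`
-/

namespace Pool.Agent.X159.DQ

open MvPolynomial

variable {𝕜 : Type*} [Field 𝕜]

/-- the map `z ↦ B (z_j ^ 2)_j` -/
def sqm {R κ : Type*} [CommRing R] [Fintype κ] (B : κ → κ → ℤ) (z : κ → R) : κ → R :=
  fun i => ∑ j, (B i j : R) * z j ^ 2

theorem sqm_map {R S κ : Type*} [CommRing R] [CommRing S] [Fintype κ] (φ : R →+* S)
    (B : κ → κ → ℤ) (z : κ → R) (n : ℕ) :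
    (sqm B)^[n] (fun i => φ (z i)) = fun i => φ ((sqm B)^[n] z i) := by
  induction n with
  | zero => rfl
  | succ n ih =>
    rw [Function.iterate_succ_apply', ih, Function.iterate_succ_apply']
    funext i
    simp [sqm]

theorem sqm_scale {R κ : Type*} [CommRing R] [Fintype κ] (c : R)
    (B : κ → κ → ℤ) (z : κ → R) (n : ℕ) :
    (sqm B)^[n] (fun i => c * z i) = fun i => c ^ 2 ^ n * (sqm B)^[n] z i := by
  induction n with
  | zero => simp
  | succ n ih =>
    rw [Function.iterate_succ_apply', ih, Function.iterate_succ_apply']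
    funext i
    simp only [sqm, Finset.mul_sum]
    refine Finset.sum_congr rfl fun j _ => ?_
    rw [pow_succ 2 n, pow_mul]
    ring

/-- the map whose coordinates are the products of the linear forms with coefficients `l i`, `m i` -/
noncomputable def pm {ι : Type*} [Fintype ι] (l m : ι → ι → ℤ) (x : ι → 𝕜) : ι → 𝕜 :=
  fun i => (∑ j, (l i j : 𝕜) * x j) * (∑ j, (m i j : 𝕜) * x j)

theorem sqm_fin {κ : Type*} [Fintype κ] (B : κ → κ → ℤ) (z : κ → 𝕜) (i0 : κ) :
    ∃ (M : ℕ) (B' : Fin (M + 1) → Fin (M + 1) → ℤ) (z' : Fin (M + 1) → 𝕜),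
      ∀ n, (sqm B)^[n] z i0 = (sqm B')^[n] z' 0 := by
  classical
  have hc : 0 < Fintype.card κ := Fintype.card_pos_iff.2 ⟨i0⟩
  obtain ⟨M, hM⟩ : ∃ M, Fintype.card κ = M + 1 := ⟨Fintype.card κ - 1, by omega⟩
  let e0 : κ ≃ Fin (M + 1) := Fintype.equivFinOfCardEq hM
  let e : κ ≃ Fin (M + 1) := e0.trans (Equiv.swap (e0 i0) 0)
  have he : e i0 = 0 := by simp [e]
  have he' : e.symm 0 = i0 := by rw [← he, Equiv.symm_apply_apply]
  refine ⟨M, fun i j => B (e.symm i) (e.symm j), z ∘ e.symm, fun n => ?_⟩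
  have key : ∀ w : κ → 𝕜, sqm (fun i j => B (e.symm i) (e.symm j)) (w ∘ e.symm) =
      (sqm B w) ∘ e.symm := by
    intro w
    funext i
    simp only [sqm, Function.comp]
    exact Equiv.sum_comp e.symm (fun j => (B (e.symm i) j : 𝕜) * w j ^ 2)
  have h : ∀ n, (sqm (fun i j => B (e.symm i) (e.symm j)))^[n] (z ∘ e.symm) =
      ((sqm B)^[n] z) ∘ e.symm := by
    intro n
    induction n with
    | zero => rfl
    | succ n ih => rw [Function.iterate_succ_apply', ih, key, Function.iterate_succ_apply']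
  rw [h n]
  simp [he']

theorem pm_sqm [CharZero 𝕜] {ι : Type*} [Fintype ι] (l m : ι → ι → ℤ) (x : ι → 𝕜) (i0 : ι) :
    ∃ (B : Option (ι ⊕ ι) → Option (ι ⊕ ι) → ℤ) (z : Option (ι ⊕ ι) → 𝕜) (c : ℕ → 𝕜),
      (∀ n, c n ≠ 0) ∧ ∀ n, (sqm B)^[n] z none = c n * (pm l m)^[n] x i0 := by
  classical
  let L : Option (ι ⊕ ι) → ι → ℤ := fun a => match a with
    | none => Pi.single i0 1
    | some (Sum.inl i) => fun j => l i j + m i j
    | some (Sum.inr i) => fun j => l i j - m i j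
  let Lv : (ι → 𝕜) → Option (ι ⊕ ι) → 𝕜 := fun x a => ∑ j, (L a j : 𝕜) * x j
  let A : ι → Option (ι ⊕ ι) → ℤ := fun i b => match b with
    | none => 0
    | some (Sum.inl i') => if i = i' then 1 else 0
    | some (Sum.inr i') => if i = i' then -1 else 0
  let B : Option (ι ⊕ ι) → Option (ι ⊕ ι) → ℤ := fun a b => ∑ i, L a i * A i b
  let c : ℕ → 𝕜 := fun n => Nat.rec 1 (fun _ t => 4 * t ^ 2) n
  have hA : ∀ (w : Option (ι ⊕ ι) → 𝕜) (i : ι), ∑ b, (A i b : 𝕜) * w b ^ 2 =
      w (some (Sum.inl i)) ^ 2 - w (some (Sum.inr i)) ^ 2 := by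
    intro w i
    rw [Fintype.sum_option, Fintype.sum_sum_type]
    simp only [A]
    simp [sub_eq_add_neg]
  have hB : ∀ (w : Option (ι ⊕ ι) → 𝕜) a, sqm B w a =
      ∑ i, (L a i : 𝕜) * (w (some (Sum.inl i)) ^ 2 - w (some (Sum.inr i)) ^ 2) := by
    intro w a
    simp only [sqm, B]
    push_cast
    simp only [Finset.sum_mul]
    rw [Finset.sum_comm]
    refine Finset.sum_congr rfl fun i _ => ?_
    rw [← hA w i, Finset.mul_sum]
    refine Finset.sum_congr rfl fun b _ => ?_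
    ring
  have key : ∀ (t : 𝕜) (y : ι → 𝕜), sqm B (fun a => t * Lv y a) =
      fun a => (4 * t ^ 2) * Lv (pm l m y) a := by
    intro t y
    funext a
    rw [hB]
    simp only [Lv]
    rw [Finset.mul_sum]
    refine Finset.sum_congr rfl fun i _ => ?_
    have e1 : (∑ j, (L (some (Sum.inl i)) j : 𝕜) * y j) =
        (∑ j, (l i j : 𝕜) * y j) + ∑ j, (m i j : 𝕜) * y j := by
      simp only [L]
      push_cast
      rw [← Finset.sum_add_distrib]
      exact Finset.sum_congr rfl fun j _ => by ring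
    have e2 : (∑ j, (L (some (Sum.inr i)) j : 𝕜) * y j) =
        (∑ j, (l i j : 𝕜) * y j) - ∑ j, (m i j : 𝕜) * y j := by
      simp only [L]
      push_cast
      rw [← Finset.sum_sub_distrib]
      exact Finset.sum_congr rfl fun j _ => by ring
    rw [e1, e2]
    simp only [pm]
    ring
  have hc : ∀ n, c n ≠ 0 := by
    intro n
    induction n with
    | zero => exact one_ne_zero
    | succ n ih => exact mul_ne_zero (by norm_num) (pow_ne_zero 2 ih)
  refine ⟨B, fun a => 1 * Lv x a, c, hc, fun n => ?_⟩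
  have h : ∀ n, (sqm B)^[n] (fun a => 1 * Lv x a) = fun a => c n * Lv ((pm l m)^[n] x) a := by
    intro n
    induction n with
    | zero => rfl
    | succ n ih =>
      rw [Function.iterate_succ_apply', ih, key, Function.iterate_succ_apply']
  rw [h n]
  simp only [Lv, L]
  simp [Pi.single_apply, Finset.sum_ite_eq]

/-! ### Words -/

/-- `1` or the value of a variable -/
def hat {τ : Type*} (x : τ → 𝕜) (o : Option τ) : 𝕜 := o.elim 1 x

theorem hat_prod {τ : Type*} (x : τ → 𝕜) (l : List τ) (K : ℕ) (h : l.length ≤ K) :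
    ∏ j ∈ Finset.range K, hat x (l[j]?) = (l.map x).prod := by
  induction l generalizing K with
  | nil => simp [hat]
  | cons a l ih =>
    obtain ⟨K, rfl⟩ : ∃ K', K = K' + 1 := ⟨K - 1, by simp at h; omega⟩
    rw [Finset.prod_range_succ']
    simp only [List.getElem?_cons_succ, List.getElem?_cons_zero]
    rw [ih K (by simpa using h)]
    simp [hat, mul_comm]

theorem exists_list {τ : Type*} (m : τ →₀ ℕ) : ∃ l : List τ, l.length = (m.sum fun _ e => e) ∧
    ∀ x : τ → 𝕜, (l.map x).prod = m.prod fun i e => x i ^ e := by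
  classical
  induction m using Finsupp.induction_linear with
  | zero => exact ⟨[], by simp, by simp⟩
  | add f g hf hg =>
    obtain ⟨l, h1, h2⟩ := hf
    obtain ⟨l', h1', h2'⟩ := hg
    refine ⟨l ++ l', ?_, fun x => ?_⟩
    · rw [Finsupp.sum_add_index' (by simp) (by simp), List.length_append, h1, h1']
    · rw [Finsupp.prod_add_index' (by simp) (fun i a b => pow_add _ _ _), List.map_append,
        List.prod_append, h2, h2']
  | single a n =>
    exact ⟨List.replicate n a, by simp, fun x => by simp⟩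

theorem rep {τ : Type*} [Fintype τ] [DecidableEq τ] (k : ℕ) (p : MvPolynomial τ ℤ)
    (h : p.totalDegree ≤ 2 ^ k) :
    ∃ c : (ZMod (2 ^ k) → Option τ) → ℤ, ∀ x : τ → 𝕜, aeval x p =
      ∑ w, (c w : 𝕜) * ∏ j ∈ Finset.range (2 ^ k), hat x (w (j : ZMod (2 ^ k))) := by
  classical
  choose L hL1 hL2 using fun m : τ →₀ ℕ => exists_list (𝕜 := 𝕜) m
  let wd : (τ →₀ ℕ) → (ZMod (2 ^ k) → Option τ) := fun m j => (L m)[j.val]?
  have hwd : ∀ m ∈ p.support, ∀ x : τ → 𝕜,
      ∏ j ∈ Finset.range (2 ^ k), hat x (wd m (j : ZMod (2 ^ k))) = m.prod fun i e => x i ^ e := by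
    intro m hm x
    rw [← hL2 m x, ← hat_prod x (L m) (2 ^ k) (by
      rw [hL1]; exact le_trans (le_totalDegree hm) h)]
    refine Finset.prod_congr rfl fun j hj => ?_
    simp only [wd]
    rw [ZMod.val_cast_of_lt (Finset.mem_range.1 hj)]
  refine ⟨∑ m ∈ p.support, Pi.single (wd m) (p.coeff m), fun x => ?_⟩
  have e : ∀ w, (((∑ m ∈ p.support, Pi.single (wd m) (p.coeff m) :
      (ZMod (2 ^ k) → Option τ) → ℤ) w : ℤ) : 𝕜) =
      ∑ m ∈ p.support, if w = wd m then ((p.coeff m : ℤ) : 𝕜) else 0 := by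
    intro w
    rw [Finset.sum_apply]
    push_cast
    refine Finset.sum_congr rfl fun m _ => ?_
    rw [Pi.single_apply]
    split <;> simp
  simp only [e, Finset.sum_mul]
  rw [Finset.sum_comm, aeval_def, eval₂_eq]
  refine Finset.sum_congr rfl fun m hm => ?_
  simp only [ite_mul, zero_mul, Finset.sum_ite_eq', Finset.mem_univ, if_true]
  rw [hwd m hm x]
  simp [Finsupp.prod]

/-! ### The pipeline -/

section pipe

variable {τ : Type*} [Fintype τ] [DecidableEq τ] (k : ℕ)

/-- the coefficients of the first factors -/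
noncomputable def pl (cf : Option τ → (ZMod (2 ^ k) → Option τ) → ℤ)
    (p : Fin (k + 1) × (ZMod (2 ^ k) → Option τ)) :
    Fin (k + 1) × (ZMod (2 ^ k) → Option τ) → ℤ :=
  Fin.cases (motive := fun _ => Fin (k + 1) × (ZMod (2 ^ k) → Option τ) → ℤ)
    (fun q => if q.1 = Fin.last k then cf (p.2 0) q.2 else 0)
    (fun s => Pi.single (s.castSucc, p.2) 1) p.1

/-- the coefficients of the second factors -/
noncomputable def pr (p : Fin (k + 1) × (ZMod (2 ^ k) → Option τ)) :
    Fin (k + 1) × (ZMod (2 ^ k) → Option τ) → ℤ :=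
  Fin.cases (motive := fun _ => Fin (k + 1) × (ZMod (2 ^ k) → Option τ) → ℤ)
    (Pi.single (Fin.last k, fun _ => none) 1)
    (fun s => Pi.single (s.castSucc, fun i => p.2 (i + ((2 ^ (s : ℕ) : ℕ) : ZMod (2 ^ k)))) 1) p.1

/-- the block `s` holds the products of `2 ^ s` letters -/
def Good (s : Fin (k + 1)) (x : τ → 𝕜) (Y : Fin (k + 1) × (ZMod (2 ^ k) → Option τ) → 𝕜) : Prop :=
  ∀ w, Y (s, w) = ∏ j ∈ Finset.range (2 ^ (s : ℕ)), hat x (w (j : ZMod (2 ^ k)))

theorem good_succ (cf : Option τ → (ZMod (2 ^ k) → Option τ) → ℤ) (s : Fin k) (x : τ → 𝕜)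
    (Y : Fin (k + 1) × (ZMod (2 ^ k) → Option τ) → 𝕜) (h : Good k s.castSucc x Y) :
    Good k s.succ x (pm (pl k cf) (pr k) Y) := by
  intro w
  simp only [pm, pl, pr, Fin.cases_succ]
  simp only [Pi.single_apply, Int.cast_ite, Int.cast_one, Int.cast_zero, ite_mul, one_mul,
    zero_mul, Finset.sum_ite_eq', Finset.mem_univ, if_true]
  rw [h w, h, Fin.val_succ, pow_succ, mul_two, Finset.prod_range_add]
  simp only [Fin.val_castSucc]
  congr 1
  refine Finset.prod_congr rfl fun j _ => ?_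
  push_cast
  rw [add_comm]

theorem good_zero (cf : Option τ → (ZMod (2 ^ k) → Option τ) → ℤ)
    (F : (τ → 𝕜) → (τ → 𝕜)) (h0 : cf none = Pi.single (fun _ => none) 1)
    (h1 : ∀ i x, ∑ w, (cf (some i) w : 𝕜) *
      ∏ j ∈ Finset.range (2 ^ k), hat x (w (j : ZMod (2 ^ k))) = F x i) (x : τ → 𝕜)
    (Y : Fin (k + 1) × (ZMod (2 ^ k) → Option τ) → 𝕜) (h : Good k (Fin.last k) x Y) :
    Good k 0 (F x) (pm (pl k cf) (pr k) Y) := by
  intro w
  simp only [pm, pl, pr, Fin.cases_zero]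
  have e1 : ∑ j : Fin (k + 1) × (ZMod (2 ^ k) → Option τ),
      (((Pi.single ((Fin.last k, fun _ => none) : Fin (k + 1) × (ZMod (2 ^ k) → Option τ)) 1 :
        Fin (k + 1) × (ZMod (2 ^ k) → Option τ) → ℤ) j : ℤ) : 𝕜) * Y j = 1 := by
    simp only [Pi.single_apply, Int.cast_ite, Int.cast_one, Int.cast_zero, ite_mul, one_mul,
      zero_mul, Finset.sum_ite_eq', Finset.mem_univ, if_true]
    rw [h]
    simp [hat]
  have e2 : ∑ j : Fin (k + 1) × (ZMod (2 ^ k) → Option τ),
      ((if j.1 = Fin.last k then cf (w 0) j.2 else 0 : ℤ) : 𝕜) * Y j =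
      ∑ v, (cf (w 0) v : 𝕜) * ∏ j ∈ Finset.range (2 ^ k), hat x (v (j : ZMod (2 ^ k))) := by
    rw [Fintype.sum_prod_type]
    rw [Finset.sum_eq_single (Fin.last k)]
    · refine Finset.sum_congr rfl fun v _ => ?_
      rw [h v]
      simp
    · intro b _ hb
      simp [hb]
    · simp
  rw [e1, e2, mul_one]
  simp only [Fin.val_zero, pow_zero, Finset.prod_range_one, Nat.cast_zero]
  cases hw : w 0 with
  | none =>
    rw [h0]
    simp [hat, Pi.single_apply]
  | some i =>
    rw [h1 i x]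
    rfl

theorem good_iter (cf : Option τ → (ZMod (2 ^ k) → Option τ) → ℤ) (x : τ → 𝕜)
    (Y : Fin (k + 1) × (ZMod (2 ^ k) → Option τ) → 𝕜) (h : Good k 0 x Y) (s : Fin (k + 1)) :
    Good k s x ((pm (pl k cf) (pr k))^[(s : ℕ)] Y) := by
  induction s using Fin.induction with
  | zero => exact h
  | succ s ih =>
    rw [Fin.val_succ, Function.iterate_succ_apply']
    exact good_succ k cf s x _ ih

theorem good_cycle (cf : Option τ → (ZMod (2 ^ k) → Option τ) → ℤ)
    (F : (τ → 𝕜) → (τ → 𝕜)) (h0 : cf none = Pi.single (fun _ => none) 1)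
    (h1 : ∀ i x, ∑ w, (cf (some i) w : 𝕜) *
      ∏ j ∈ Finset.range (2 ^ k), hat x (w (j : ZMod (2 ^ k))) = F x i) (x : τ → 𝕜)
    (Y : Fin (k + 1) × (ZMod (2 ^ k) → Option τ) → 𝕜) (h : Good k 0 x Y) (n : ℕ) :
    Good k 0 (F^[n] x) ((pm (pl k cf) (pr k))^[(k + 1) * n] Y) := by
  induction n with
  | zero => exact h
  | succ n ih =>
    have h2 := good_iter k cf _ _ ih (Fin.last k)
    have h3 := good_zero k cf F h0 h1 _ _ h2
    rw [Function.iterate_succ_apply' F, Nat.mul_succ, Nat.add_comm ((k + 1) * n),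
      Function.iterate_add_apply, Function.iterate_succ_apply']
    exact h3

end pipe

/-- every coordinate of the orbit of a polynomial map with integer coefficients is, up to nonzero
factors, a coordinate of the orbit of a map `z ↦ B (z_j ^ 2)`, at the multiples of some `K` -/
theorem poly_sqm [CharZero 𝕜] {τ : Type*} [Fintype τ] [DecidableEq τ] (f : τ → MvPolynomial τ ℤ)
    (x : τ → 𝕜) (i0 : τ) :
    ∃ (K M : ℕ) (B : Fin (M + 1) → Fin (M + 1) → ℤ) (z : Fin (M + 1) → 𝕜), 0 < K ∧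
      ∀ n, ((fun (y : τ → 𝕜) i => aeval y (f i))^[n] x i0 = 0 ↔ (sqm B)^[K * n] z 0 = 0) := by
  classical
  let k : ℕ := Finset.univ.sup fun i => (f i).totalDegree
  have hk : ∀ i, (f i).totalDegree ≤ 2 ^ k := fun i =>
    le_trans (Finset.le_sup (f := fun i => (f i).totalDegree) (Finset.mem_univ i))
      (Nat.lt_two_pow_self).le
  choose c hc using fun i => rep (𝕜 := 𝕜) k (f i) (hk i)
  let cf : Option τ → (ZMod (2 ^ k) → Option τ) → ℤ := fun o =>
    o.elim (Pi.single (fun _ => none) 1) c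
  let Y : Fin (k + 1) × (ZMod (2 ^ k) → Option τ) → 𝕜 := fun p =>
    ∏ j ∈ Finset.range (2 ^ (p.1 : ℕ)), hat x (p.2 (j : ZMod (2 ^ k)))
  have hY : Good k 0 x Y := fun w => rfl
  have hcyc := good_cycle k cf (fun y i => aeval y (f i)) rfl
    (fun i y => (hc i y).symm) x Y hY
  obtain ⟨B, z, cc, hcc, hB⟩ := pm_sqm (pl k cf) (pr k) Y ((0 : Fin (k + 1)), fun _ => some i0)
  obtain ⟨M, B', z', hB'⟩ := sqm_fin B z none
  refine ⟨k + 1, M, B', z', Nat.succ_pos _, fun n => ?_⟩
  rw [← hB', hB, mul_eq_zero, or_iff_right (hcc _), hcyc n]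
  simp [hat]

/-- the same for the values of a polynomial -/
theorem poly_sqm' [CharZero 𝕜] {τ : Type*} [Fintype τ] [DecidableEq τ] (f : τ → MvPolynomial τ ℤ)
    (x : τ → 𝕜) (p : MvPolynomial τ ℤ) :
    ∃ (K M : ℕ) (B : Fin (M + 1) → Fin (M + 1) → ℤ) (z : Fin (M + 1) → 𝕜), 0 < K ∧
      ∀ n, (aeval ((fun (y : τ → 𝕜) i => aeval y (f i))^[n] x) p = 0 ↔
        (sqm B)^[K * (n + 1)] z 0 = 0) := by
  classical
  let f' : Option τ → MvPolynomial (Option τ) ℤ := fun o =>
    o.elim (rename some p) fun i => rename some (f i)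
  let x' : Option τ → 𝕜 := fun o => o.elim 0 x
  have key : ∀ n, (fun (y : Option τ → 𝕜) i => aeval y (f' i))^[n] x' ∘ some =
      (fun (y : τ → 𝕜) i => aeval y (f i))^[n] x := by
    intro n
    induction n with
    | zero => rfl
    | succ n ih =>
      rw [Function.iterate_succ_apply', Function.iterate_succ_apply', ← ih]
      funext i
      simp only [Function.comp, f', Option.elim]
      rw [aeval_rename]
  obtain ⟨K, M, B, z, hK, h⟩ := poly_sqm f' x' none
  refine ⟨K, M, B, z, hK, fun n => ?_⟩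
  rw [← h (n + 1), Function.iterate_succ_apply', ← key n]
  simp only [f', Option.elim]
  rw [aeval_rename]

/-- the same for coefficients in the field -/
theorem cpoly_sqm [CharZero 𝕜] {σ : Type*} [Fintype σ] [DecidableEq σ] (f : σ → MvPolynomial σ 𝕜)
    (x : σ → 𝕜) (p : MvPolynomial σ 𝕜) :
    ∃ (K M : ℕ) (B : Fin (M + 1) → Fin (M + 1) → ℤ) (z : Fin (M + 1) → 𝕜), 0 < K ∧
      ∀ n, (eval ((fun (y : σ → 𝕜) i => eval y (f i))^[n] x) p = 0 ↔
        (sqm B)^[K * (n + 1)] z 0 = 0) := by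
  classical
  let D : Finset 𝕜 := (p.support.image fun m => p.coeff m) ∪
    Finset.univ.biUnion fun i => (f i).support.image fun m => (f i).coeff m
  let lft : MvPolynomial σ 𝕜 → MvPolynomial (σ ⊕ D) ℤ := fun q =>
    ∑ m ∈ q.support, (if h : q.coeff m ∈ D then X (Sum.inr ⟨q.coeff m, h⟩) else 0) *
      ∏ i ∈ m.support, X (Sum.inl i) ^ m i
  have hl : ∀ q : MvPolynomial σ 𝕜, (∀ m ∈ q.support, q.coeff m ∈ D) → ∀ y : σ → 𝕜,
      aeval (Sum.elim y (fun c : D => (c : 𝕜))) (lft q) = eval y q := by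
    intro q hq y
    rw [eval_eq]
    simp only [lft, map_sum]
    refine Finset.sum_congr rfl fun m hm => ?_
    rw [dif_pos (hq m hm)]
    simp
  have hp : ∀ m ∈ p.support, p.coeff m ∈ D := fun m hm =>
    Finset.mem_union_left _ (Finset.mem_image_of_mem _ hm)
  have hf : ∀ i, ∀ m ∈ (f i).support, (f i).coeff m ∈ D := fun i m hm =>
    Finset.mem_union_right _ (Finset.mem_biUnion.2 ⟨i, Finset.mem_univ _,
      Finset.mem_image_of_mem _ hm⟩)
  let f' : (σ ⊕ D) → MvPolynomial (σ ⊕ D) ℤ := Sum.elim (fun i => lft (f i))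
    (fun c => X (Sum.inr c))
  have key : ∀ n, (fun (y : σ ⊕ D → 𝕜) i => aeval y (f' i))^[n]
      (Sum.elim x (fun c : D => (c : 𝕜))) =
      Sum.elim ((fun (y : σ → 𝕜) i => eval y (f i))^[n] x) (fun c : D => (c : 𝕜)) := by
    intro n
    induction n with
    | zero => rfl
    | succ n ih =>
      rw [Function.iterate_succ_apply', Function.iterate_succ_apply', ih]
      funext i
      cases i with
      | inl i => simp only [f', Sum.elim_inl]; exact hl (f i) (hf i) _
      | inr c => simp [f']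
  obtain ⟨K, M, B, z, hK, h⟩ := poly_sqm' f' (Sum.elim x (fun c : D => (c : 𝕜))) (lft p)
  refine ⟨K, M, B, z, hK, fun n => ?_⟩
  rw [← h n, key n, hl p hp]

end Pool.Agent.X159.DQ
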